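import Pool.Agent.TOR.StmtsX

/-! Squad TOR, row XTH (helper17): rules for thin polynomials. -/

set_option autoImplicit false

namespace Pool.Agent.TOR.H17

open MvPolynomial Pool.Agent.TOR
open scoped Pointwise

theorem vec_add (s t : ℕ →₀ ℕ) : vec (s + t) = vec s + vec t := by
  ext i
  simp only [vec, Finsupp.mapRange_apply, Finsupp.add_apply, Nat.cast_add]

instance fd (f : MvPolynomial ℕ ℚ) :
    FiniteDimensional ℚ (vectorSpan ℚ (vec '' (f.support : Set (ℕ →₀ ℕ)))) :=
  finiteDimensional_vectorSpan_of_finite ℚ ((Finset.finite_toSet _).image _)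

theorem mem_vs {f : MvPolynomial ℕ ℚ} {s t : ℕ →₀ ℕ} (hs : s ∈ f.support) (ht : t ∈ f.support) :
    vec s - vec t ∈ vectorSpan ℚ (vec '' (f.support : Set (ℕ →₀ ℕ))) :=
  vsub_mem_vectorSpan ℚ ⟨s, hs, rfl⟩ ⟨t, ht, rfl⟩

/-- to check that the span is contained in a subspace -/
theorem vs_le {f : MvPolynomial ℕ ℚ} {L : Submodule ℚ (ℕ →₀ ℚ)}
    (h : ∀ s ∈ f.support, ∀ t ∈ f.support, vec s - vec t ∈ L) :
    vectorSpan ℚ (vec '' (f.support : Set (ℕ →₀ ℕ))) ≤ L := by
  rw [vectorSpan_def, Submodule.span_le]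
  rintro _ ⟨_, ⟨s, hs, rfl⟩, _, ⟨t, ht, rfl⟩, rfl⟩
  exact h s hs t ht

theorem thin_shift {c n D : ℕ} {f g : MvPolynomial ℕ ℚ} (u : ℕ →₀ ℕ)
    (h : ∀ s ∈ g.support, s + u ∈ f.support) (hf : IsThin ℚ c n D f) : IsThin ℚ c n D g := by
  obtain ⟨h1, h2, h3⟩ := hf
  refine ⟨?_, ?_, ?_⟩
  · intro i hi
    obtain ⟨s, hs, his⟩ := (mem_vars_iff_mem_support i).1 hi
    apply h1
    refine (mem_vars_iff_mem_support i).2 ⟨s + u, h s hs, ?_⟩
    rw [Finsupp.mem_support_iff] at his ⊢
    rw [Finsupp.add_apply]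
    omega
  · refine le_trans ?_ h2
    refine Finset.sup_le fun s hs => ?_
    refine le_trans ?_ (le_totalDegree (h s hs))
    rw [Finsupp.sum_add_index' (fun _ => rfl) (fun _ _ _ => rfl)]
    exact Nat.le_add_right _ _
  · refine le_trans (Submodule.finrank_mono (vs_le fun s hs t ht => ?_)) h3
    have h4 := mem_vs (h s hs) (h t ht)
    rw [vec_add, vec_add, add_sub_add_right_eq_sub] at h4
    exact h4

theorem xth : XthStmt := by
  intro n
  refine ⟨?_, ?_, ?_, ?_, ?_⟩
  · intro c c' D D' f g hf hg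
    obtain ⟨f1, f2, f3⟩ := hf
    obtain ⟨g1, g2, g3⟩ := hg
    refine ⟨?_, ?_, ?_⟩
    · exact (vars_mul f g).trans (Finset.union_subset f1 g1)
    · exact (totalDegree_mul f g).trans (Nat.add_le_add f2 g2)
    · refine le_trans (Submodule.finrank_mono (vs_le (L := vectorSpan ℚ (vec '' (f.support :
        Set (ℕ →₀ ℕ))) ⊔ vectorSpan ℚ (vec '' (g.support : Set (ℕ →₀ ℕ)))) ?_)) ?_
      · intro s hs t ht
        obtain ⟨a, ha, b, hb, rfl⟩ := Finset.mem_add.1 (support_mul f g hs)
        obtain ⟨a', ha', b', hb', rfl⟩ := Finset.mem_add.1 (support_mul f g ht)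
        rw [vec_add, vec_add, add_sub_add_comm]
        exact Submodule.add_mem_sup (mem_vs ha ha') (mem_vs hb hb')
      · exact (Submodule.finrank_add_le_finrank_add_finrank _ _).trans (Nat.add_le_add f3 g3)
  · intro c D l f hf
    refine thin_shift (Finsupp.single l 1) ?_ hf
    intro s hs
    rw [mem_support_iff, coeff_pderiv] at hs
    rw [mem_support_iff]
    exact left_ne_zero_of_mul hs
  · intro c D a f hf
    refine thin_shift 0 ?_ hf
    intro s hs
    rw [mem_support_iff, coeff_C_mul] at hs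
    rw [add_zero, mem_support_iff]
    exact right_ne_zero_of_mul hs
  · intro c c' D D' f hc hD hf
    exact ⟨hf.1, hf.2.1.trans hD, hf.2.2.trans hc⟩
  · intro c D a
    refine ⟨?_, ?_, ?_⟩
    · rw [vars_C]
      exact Finset.empty_subset _
    · rw [totalDegree_C]
      exact Nat.zero_le _
    · have h0 : ∀ s ∈ (C a : MvPolynomial ℕ ℚ).support, s = 0 := by
        intro s hs
        rw [mem_support_iff, coeff_C] at hs
        by_contra h
        exact hs (if_neg fun e => h e.symm)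
      have h1 : vectorSpan ℚ (vec '' ((C a : MvPolynomial ℕ ℚ).support : Set (ℕ →₀ ℕ))) ≤ ⊥ := by
        refine vs_le fun s hs t ht => ?_
        rw [h0 s hs, h0 t ht, sub_self]
        exact Submodule.zero_mem _
      rw [le_bot_iff.1 h1, finrank_bot]
      exact Nat.zero_le _

end Pool.Agent.TOR.H17
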